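import Mathlib

set_option autoImplicit false

namespace Pool.Agent.Results.MP_441cc7_al.AlwaysIndependent

open Polynomial Finset

/-- The product `∏ (x - t_{i+j})` over `1 ≤ j ≤ d`. -/
noncomputable def P (t : ℕ → ℝ) (d i : ℕ) : ℝ[X] := ∏ j ∈ range d, (X - C (t (i + 1 + j)))

theorem P_monic (t : ℕ → ℝ) (d i : ℕ) : (P t d i).Monic :=
  monic_prod_of_monic _ _ fun _ _ => monic_X_sub_C _

theorem P_natDegree (t : ℕ → ℝ) (d i : ℕ) : (P t d i).natDegree = d := by
  rw [P, natDegree_prod_of_monic _ _ fun _ _ => monic_X_sub_C _]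
  simp

theorem P_diff (t : ℕ → ℝ) (d m : ℕ) :
    P t (d + 1) (m + 1) - P t (d + 1) m = C (t (m + 1) - t (m + 2 + d)) * P t d (m + 1) := by
  have h1 : P t (d + 1) (m + 1) = P t d (m + 1) * (X - C (t (m + 2 + d))) := by
    rw [P, prod_range_succ, P]
  have h2 : P t (d + 1) m = P t d (m + 1) * (X - C (t (m + 1))) := by
    rw [P, prod_range_succ', P]
    congr 1
    apply prod_congr rfl
    intro j _
    rw [show m + 1 + (j + 1) = m + 1 + 1 + j by ring]
  rw [h1, h2, C_sub]
  ring

theorem exists_step (f : ℕ → ℝ) (a b : ℕ) (hab : a < b) (h : f a ≤ f b) :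
    ∃ m, a ≤ m ∧ m < b ∧ f m ≤ f (m + 1) := by
  by_contra hcon
  push Not at hcon
  have key : ∀ n, a < n → n ≤ b → f n < f a := by
    intro n hn
    induction n, hn using Nat.le_induction with
    | base => intro hb; exact hcon a le_rfl hb
    | succ n hn ih => intro hb; exact (hcon n (by omega) (by omega)).trans (ih (by omega))
  exact absurd h (not_le.mpr (key b hab le_rfl))

/-- A linear functional whose values at the `P t d i` change sign weakly at least `d + 1` times
vanishes on all polynomials of degree at most `d`. -/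
theorem main (t : ℕ → ℝ) (ht : StrictMonoOn t (Set.Ici 1)) (φ : ℝ[X] →ₗ[ℝ] ℝ) (s : ℝ)
    (hs : s ≠ 0) (d : ℕ) : ∀ idx : ℕ → ℕ, (∀ j ≤ d, idx j < idx (j + 1)) →
      (∀ j ≤ d + 1, 0 ≤ s * (-1) ^ j * φ (P t d (idx j))) →
      ∀ p : ℝ[X], p.natDegree ≤ d → φ p = 0 := by
  induction d with
  | zero =>
    intro idx _ h p hp
    have h0 := h 0 (by omega)
    have h1 := h 1 (by omega)
    have hP : ∀ i, P t 0 i = 1 := fun i => by simp [P]
    rw [hP] at h0 h1
    have h2 : s * φ 1 = 0 := by
      apply le_antisymm <;> linarith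
    have h3 : φ 1 = 0 := by
      rcases mul_eq_zero.mp h2 with h | h
      · exact absurd h hs
      · exact h
    rw [eq_C_of_natDegree_le_zero hp, ← mul_one (C _), ← smul_eq_C_mul, map_smul, h3, smul_zero]
  | succ d ih =>
    intro idx hidx h p hp
    -- sign changes of the differences
    have hstep : ∀ j, j ≤ d + 1 → ∃ m, idx j ≤ m ∧ m < idx (j + 1) ∧
        0 ≤ s * (-1) ^ j * φ (P t d (m + 1)) := by
      intro j hj
      obtain ⟨m, h1, h2, h3⟩ := exists_step
        (fun i => s * (-1) ^ (j + 1) * φ (P t (d + 1) i)) (idx j) (idx (j + 1)) (hidx j hj) (by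
          have h4 := h j (by omega)
          have h5 := h (j + 1) (by omega)
          have h6 : s * (-1) ^ (j + 1) * φ (P t (d + 1) (idx j)) =
            - (s * (-1) ^ j * φ (P t (d + 1) (idx j))) := by ring
          show s * (-1) ^ (j + 1) * φ (P t (d + 1) (idx j)) ≤
            s * (-1) ^ (j + 1) * φ (P t (d + 1) (idx (j + 1)))
          rw [h6]
          linarith)
      refine ⟨m, h1, h2, ?_⟩
      have h4 : φ (P t (d + 1) (m + 1)) - φ (P t (d + 1) m) =
          (t (m + 1) - t (m + 2 + d)) * φ (P t d (m + 1)) := by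
        rw [← map_sub, P_diff, ← smul_eq_C_mul, map_smul, smul_eq_mul]
      have h5 : t (m + 1) < t (m + 2 + d) := ht (by simp) (by simp; omega) (by omega)
      have h6 : 0 ≤ s * (-1) ^ (j + 1) *
          (φ (P t (d + 1) (m + 1)) - φ (P t (d + 1) m)) := by
        rw [mul_sub]
        linarith
      rw [h4] at h6
      have h7 : s * (-1) ^ (j + 1) * ((t (m + 1) - t (m + 2 + d)) * φ (P t d (m + 1))) =
          (t (m + 2 + d) - t (m + 1)) * (s * (-1) ^ j * φ (P t d (m + 1))) := by ring
      rw [h7] at h6
      exact nonneg_of_mul_nonneg_right h6 (by linarith)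
    have hex : ∀ j, ∃ m, j ≤ d + 1 → (idx j ≤ m ∧ m < idx (j + 1) ∧
        0 ≤ s * (-1) ^ j * φ (P t d (m + 1))) := by
      intro j
      by_cases hj : j ≤ d + 1
      · obtain ⟨m, hm⟩ := hstep j hj
        exact ⟨m, fun _ => hm⟩
      · exact ⟨0, fun h => absurd h hj⟩
    choose m hm using hex
    have hlow := ih (fun j => m j + 1) (fun j hj => by
      have h1 := (hm j (by omega)).2.1
      have h2 := (hm (j + 1) (by omega)).1
      show m j + 1 < m (j + 1) + 1
      omega) (fun j hj => (hm j hj).2.2)
    -- now the functional only depends on the coefficient of degree `d + 1`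
    have hlead : ∀ q : ℝ[X], q.natDegree ≤ d + 1 → φ q = q.coeff (d + 1) * φ (X ^ (d + 1)) := by
      intro q hq
      have h1 : φ (q - C (q.coeff (d + 1)) * X ^ (d + 1)) = 0 := by
        apply hlow
        rw [natDegree_le_iff_coeff_eq_zero]
        intro N hN
        rw [coeff_sub, coeff_C_mul, coeff_X_pow]
        by_cases hN2 : N = d + 1
        · subst hN2; simp
        · rw [if_neg hN2, mul_zero, sub_zero]
          exact coeff_eq_zero_of_natDegree_lt (by omega)
      rw [map_sub, ← smul_eq_C_mul, map_smul, smul_eq_mul] at h1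
      linarith
    have hPl : ∀ i, φ (P t (d + 1) i) = φ (X ^ (d + 1)) := by
      intro i
      rw [hlead _ (P_natDegree t (d + 1) i).le]
      have : (P t (d + 1) i).coeff (d + 1) = 1 := by
        have := (P_monic t (d + 1) i).coeff_natDegree
        rwa [P_natDegree] at this
      rw [this, one_mul]
    have h0 := h 0 (by omega)
    have h1 := h 1 (by omega)
    rw [hPl] at h0 h1
    have h2 : s * φ (X ^ (d + 1)) = 0 := by
      apply le_antisymm <;> linarith
    have h3 : φ (X ^ (d + 1)) = 0 := by
      rcases mul_eq_zero.mp h2 with h | h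
      · exact absurd h hs
      · exact h
    rw [hlead p hp, h3, mul_zero]

/-- For every `k ≥ 2`, every strictly increasing real sequence `t_1 < t_2 < ...` and all indices
`0 ≤ i_1 < ... < i_k`, the polynomials `P_{i_1}, ..., P_{i_k}`, where
`P_i = ∏_{j=1}^{k-1} (x - t_{i+j})`, are linearly independent over the reals. -/
theorem result (k : ℕ) (hk : 2 ≤ k) (t : ℕ → ℝ) (ht : StrictMonoOn t (Set.Ici 1))
    (i : Fin k → ℕ) (hi : StrictMono i) :
    LinearIndependent ℝ fun l : Fin k => ∏ j ∈ Finset.Icc 1 (k - 1), (X - C (t (i l + j))) := by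
  obtain ⟨d, rfl⟩ : ∃ d, k = d + 1 := ⟨k - 1, by omega⟩
  have hP : (fun l : Fin (d + 1) => ∏ j ∈ Finset.Icc 1 (d + 1 - 1), (X - C (t (i l + j)))) =
      fun l => P t d (i l) := by
    funext l
    have h1 : Finset.Icc 1 (d + 1 - 1) = Finset.Ico 1 (d + 1) := by
      ext x
      simp only [Finset.mem_Icc, Finset.mem_Ico]
      omega
    rw [h1, P, Finset.prod_Ico_eq_prod_range]
    simp [add_assoc]
  rw [hP]
  set W := degreeLT ℝ (d + 1) with hW
  set v : Fin (d + 1) → ℝ[X] := fun l => P t d (i l) with hv
  have hvW : ∀ l, v l ∈ W := by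
    intro l
    rw [hW, mem_degreeLT, ← natDegree_lt_iff_degree_lt (P_monic t d (i l)).ne_zero, P_natDegree]
    omega
  have hspan : Submodule.span ℝ (Set.range v) = W := by
    apply le_antisymm
    · rw [Submodule.span_le]
      rintro _ ⟨l, rfl⟩
      exact hvW l
    · intro p hp
      by_contra hnot
      obtain ⟨φ, hφ1, hφ2⟩ := Submodule.exists_le_ker_of_notMem hnot
      have hz : ∀ l, φ (v l) = 0 := fun l => hφ2 (Submodule.subset_span ⟨l, rfl⟩)
      -- one more index
      set last := i (Fin.last d) with hlast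
      set idx : ℕ → ℕ := fun j => if h : j < d + 1 then i ⟨j, h⟩ else last + 1 with hidx
      have hmono : ∀ j ≤ d, idx j < idx (j + 1) := by
        intro j hj
        simp only [hidx]
        rw [dif_pos (by omega)]
        by_cases h : j + 1 < d + 1
        · rw [dif_pos h]
          exact hi (by simp)
        · rw [dif_neg h]
          have : i ⟨j, by omega⟩ ≤ last := hi.monotone (Fin.le_last _)
          omega
      set s : ℝ := if 0 ≤ (-1) ^ (d + 1) * φ (P t d (last + 1)) then 1 else -1 with hs
      have hs0 : s ≠ 0 := by rw [hs]; split_ifs <;> norm_num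
      have hall := main t ht φ s hs0 d idx hmono (by
        intro j hj
        by_cases h : j < d + 1
        · have : idx j = i ⟨j, h⟩ := by simp only [hidx]; rw [dif_pos h]
          rw [this]
          have := hz ⟨j, h⟩
          simp only [hv] at this
          rw [this, mul_zero]
        · have hj2 : j = d + 1 := by omega
          have : idx j = last + 1 := by simp only [hidx]; rw [dif_neg h]
          rw [this, hj2, mul_assoc]
          rw [hs]
          split_ifs with h2
          · linarith
          · push Not at h2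
            linarith) p (by
          rw [hW, mem_degreeLT] at hp
          by_cases hp0 : p = 0
          · simp [hp0]
          · rw [← natDegree_lt_iff_degree_lt hp0] at hp
            omega)
      exact hφ1 hall
  have hfin : Module.finrank ℝ W = d + 1 := by
    rw [hW, (degreeLTEquiv ℝ (d + 1)).finrank_eq]
    simp
  rw [linearIndependent_iff_card_eq_finrank_span, Set.finrank, hspan, hfin, Fintype.card_fin]

end Pool.Agent.Results.MP_441cc7_al.AlwaysIndependent
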